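import Pool.Agent.H78.S.Targets

/-!
# Row CTI of the board `sgt_modules` (MP_9d0bb7_lc)
-/

set_option autoImplicit false

open Set Pool.Agent.H77.BC Pool.Agent.H78.S
open scoped Pointwise

namespace Pool.Agent.H23.S

theorem pf_CTI (hITG : T_ITG) (hCTB : T_CTB) (_hORM : T_ORM) : T_CTI := by
  intro M U G S _ _ _ _ _ _ hact H X T o e hC hcom
  obtain ⟨-, hDX, -, hDH, hDT, hconnT, hTH, hTo, -, htr, -, -, -, hRT, hRH, -⟩ :=
    hCTB U hact H X T o e hC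
  obtain ⟨g, hg, rfl⟩ := htr e hC.mem
  obtain ⟨hDB, hRB, hconnB⟩ := (l_CNJ U) g⁻¹ T hDT
  have hfx : DFn U (fun x : G => x • g • o) :=
    DFn_comp (g := fun p : G × S => p.1 • p.2) hact (DFn_pair DFn_id (DFn_const _))
  have hDF : U.D ((Fx T (g • o) : Subgroup G) : Set G) := by
    have h := D_inter hDT (D_eqf hfx (DFn_const (U := U) (α := G) (g • o)))
    have e : ((Fx T (g • o) : Subgroup G) : Set G) = (T : Set G) ∩ {x | x • g • o = g • o} := rfl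
    rw [e]
    exact h
  have hle : T ⊓ cj g⁻¹ T ≤ Fx T (g • o) := by
    intro x hx
    refine ⟨hx.1, ?_⟩
    have h1 : g⁻¹ * x * g⁻¹⁻¹ ∈ T := hx.2
    have h2 := hTo _ h1
    rw [inv_inv, mul_smul, mul_smul, inv_smul_eq_iff] at h2
    exact h2
  have hR : U.R ((T ⊓ cj g⁻¹ T : Subgroup G) : Set G) ≤
      U.R ((Fx T (g • o) : Subgroup G) : Set G) :=
    (l_RKA U).mono (D_inter hDT hDB) hDF ⟨1, Subgroup.one_mem _⟩ hle
  refine hITG U H T (cj g⁻¹ T) hC.conn hconnT (hconnB hconnT) hTH ?_ hcom ?_ ?_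
  · intro x hx
    have h1 : g⁻¹ * x * g⁻¹⁻¹ ∈ T := hx
    have h2 := H.mul_mem (H.mul_mem hg (hTH h1)) (H.inv_mem hg)
    have e : g * (g⁻¹ * x * g⁻¹⁻¹) * g⁻¹ = x := by group
    rwa [e] at h2
  · intro a ha b hb
    have h1 : g⁻¹ * a * g⁻¹⁻¹ * (g⁻¹ * b * g⁻¹⁻¹) = g⁻¹ * b * g⁻¹⁻¹ * (g⁻¹ * a * g⁻¹⁻¹) :=
      hcom _ ha _ hb
    have e1 : g⁻¹ * a * g⁻¹⁻¹ * (g⁻¹ * b * g⁻¹⁻¹) = g⁻¹ * (a * b) * g := by group
    have e2 : g⁻¹ * b * g⁻¹⁻¹ * (g⁻¹ * a * g⁻¹⁻¹) = g⁻¹ * (b * a) * g := by group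
    rw [e1, e2] at h1
    exact mul_left_cancel (mul_right_cancel h1)
  · rw [hRB]
    omega

end Pool.Agent.H23.S
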