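import Pool.Agent.H78.S.Targets

/-!
# Row FUN of the board `sgt_modules` (MP_9d0bb7_lc)
-/

set_option autoImplicit false

open Set Pool.Agent.H77.BC Pool.Agent.H78.S
open scoped Pointwise

namespace Pool.Agent.H23.S

theorem pf_FUN (hPHA : T_PHA) (hINV : T_INV) (hPHI : T_PHI) (hHFI : T_HFI) (hHIC : T_HIC)
    (hLNK : T_LNK) : T_FUN := by
  intro M U G S _ _ _ _ n x hF hNt ω hω E hE i j hi hj hij L
  haveI := hF.dg
  haveI := hF.ful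
  have hne : ∀ (F : Set (S × S)) (L' : LF U G x i F), ∀ y ∈ Orb (TT U G x 0) (x 0),
      L'.f y ≠ 0 := by
    rintro F L' y ⟨t, ht, rfl⟩
    exact ((hLNK U hF.act _ _ _ _ _ (hHIC U x hF i hi).1 F L').1 t ht).1
  obtain ⟨φ, hφ1, hφ2, hφ3⟩ := hPHA U x hF hNt ω hω E hE i j hi hj hij L
  have hφ := hINV L.K φ hφ1 hφ3
  have hfirst : ∀ y ∈ Orb (TT U G x 0) (x 0), ω (Equiv.swap i j) • y ∈ Orb (TT U G x 0) (x 0) ∧
      L.f (ω (Equiv.swap i j) • y) = (L.f y)⁻¹ := by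
    intro y hy
    obtain ⟨h1, h2⟩ := hφ2 y hy
    refine ⟨h1, ?_⟩
    rw [h2 (Units.mk0 (L.f y) (hne _ L y hy)) rfl, hφ, Units.val_inv_eq_inv_val]
    rfl
  refine ⟨hfirst, ?_⟩
  intro l hl hil hjl L'
  obtain ⟨g, h, hs, hgh, hform, hfe⟩ := hPHI U x hF hNt ω hω E hE i j l hi hj hl hij hil hjl L L'
    (fun y hy => (hfirst y hy).2)
  haveI : Infinite L'.K := L'.line.inf
  obtain ⟨hg, θ, hθ⟩ := hHFI L.K L'.K g h hs hgh hfe
  refine ⟨θ, fun y hy => ?_⟩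
  rw [hform y hy (Units.mk0 (L.f y) (hne _ L y hy)) (Units.mk0 (L'.f y) (hne _ L' y hy)) rfl rfl,
    hg, hθ]
  rfl

end Pool.Agent.H23.S
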