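import Pool.Agent.H78.S.Targets

/-!
# Row ORM of the board `sgt_modules` (MP_9d0bb7_lc)
-/

set_option autoImplicit false

open Set Pool.Agent.H77.BC Pool.Agent.H78.S
open scoped Pointwise

namespace Pool.Agent.H23.S

theorem pf_ORM : T_ORM := by
  intro M U G S _ _ _ _ _ _ hact g A X
  have hg : DFn U (fun y : S => g • y) :=
    DFn_comp (g := fun p : G × S => p.1 • p.2) hact (DFn_pair (DFn_const g) DFn_id)
  have hinj : ∀ Y : Set S, InjOn (fun y : S => g • y) Y := fun Y a _ b _ h =>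
    MulAction.injective g h
  refine ⟨fun hX => DFn_image hg hX, fun hX hne => (l_RKB U).inj hX hg hne (hinj X), ?_, ?_⟩
  · rintro hA ⟨Y, hY, hne, hYA, hYX, hR⟩
    refine ⟨g • Y, DFn_image hg hY, hne.smul_set, smul_set_mono hYA, smul_set_mono hYX, ?_⟩
    have h1 : U.R (g • A) = U.R A := (l_RKB U).inj hA hg (hne.mono hYA) (hinj A)
    have h2 : U.R (g • Y) = U.R Y := (l_RKB U).inj hY hg hne (hinj Y)
    rw [h1, h2]
    exact hR
  · intro H o
    ext y
    constructor
    · rintro ⟨h, hh, rfl⟩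
      rw [mem_cj] at hh
      refine ⟨(g⁻¹ * h * g) • o, ⟨_, ?_, rfl⟩, ?_⟩
      · simpa using hh
      · change g • ((g⁻¹ * h * g) • o) = h • g • o
        simp only [mul_smul, smul_inv_smul]
    · rintro ⟨z, ⟨h, hh, rfl⟩, rfl⟩
      refine ⟨g * h * g⁻¹, ?_, ?_⟩
      · rw [mem_cj]
        have e : g⁻¹ * (g * h * g⁻¹) * g⁻¹⁻¹ = h := by group
        rw [e]
        exact hh
      · change g • h • o = (g * h * g⁻¹) • g • o
        simp only [mul_smul, inv_smul_smul]

end Pool.Agent.H23.S
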